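import Pool.Agent.P.MP_3dfad8_al.Main

namespace Pool.Agent.Results.MP_3dfad8_al.ClassBound

/-- Mann-Praeger for transitive `p`-groups of nilpotency class at most `max e 1 * (p - 1) + p`,
where `p ^ e` divides the index of the subgroup generated by the point stabilisers. -/
theorem result :
    ∀ (p : ℕ), p.Prime → ∀ (n : ℕ) (G : Subgroup (Equiv.Perm (Fin n))),
      MulAction.IsPretransitive G (Fin n) →
      IsPGroup p G →
      (∀ g : G, (∀ x : Fin n, g • x ≠ x) → orderOf g = p) →
      ∀ e : ℕ, p ^ e ∣ (⨆ x : Fin n, MulAction.stabilizer G x).index →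
      (⊤ : Subgroup G).lowerCentralSeries (max e 1 * (p - 1) + p) = ⊥ →
      ∀ g : G, g ^ p = 1 := by
  intro p hp n G htr hG hd e he hc g
  rcases isEmpty_or_nonempty (Fin n) with _ | ⟨⟨x₀⟩⟩
  · exact Subtype.ext (Equiv.ext fun x => isEmptyElim x)
  have hconj : ∀ (x : Fin n) (a k : G), a ∈ MulAction.stabilizer G x →
      k * a * k⁻¹ ∈ MulAction.stabilizer G (k • x) := fun x a k ha => by
    rw [MulAction.mem_stabilizer_iff] at ha ⊢
    rw [mul_smul, mul_smul, inv_smul_smul, ha]
  have : (⨆ x : Fin n, MulAction.stabilizer G x).Normal := ⟨fun a ha k => by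
    induction ha using Subgroup.iSup_induction' with
    | hp x a ha => exact Subgroup.mem_iSup_of_mem (k • x) (hconj x a k ha)
    | h1 =>
      rw [mul_one, mul_inv_cancel]
      exact Subgroup.one_mem _
    | hmul a b _ _ ha hb =>
      have : k * (a * b) * k⁻¹ = k * a * k⁻¹ * (k * b * k⁻¹) := by group
      rw [this]
      exact Subgroup.mul_mem _ ha hb⟩
  refine Pool.Agent.P.MP_3dfad8_al.exponent_of_class hp hG (MulAction.stabilizer G x₀) _
    (le_iSup (fun x => MulAction.stabilizer G x) x₀) (fun a ha => ?_) (fun a ha => ?_) e he hc g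
  · refine Subtype.ext (Equiv.ext fun x => ?_)
    obtain ⟨k, hk⟩ := htr.exists_smul_eq x x₀
    have h1 := hconj x₀ _ k⁻¹ (ha k)
    rw [← hk, inv_smul_smul] at h1
    have h2 : k⁻¹ * (k * a * k⁻¹) * k⁻¹⁻¹ = a := by group
    rw [h2] at h1
    exact h1
  · obtain ⟨x, hx⟩ : ∃ x : Fin n, a • x = x := by
      by_contra h
      push Not at h
      exact ha (by rw [← hd a h, pow_orderOf_eq_one])
    obtain ⟨k, hk⟩ := htr.exists_smul_eq x x₀
    exact ⟨k, hk ▸ hconj x a k hx⟩

end Pool.Agent.Results.MP_3dfad8_al.ClassBound
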