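import Pool.Agent.P.MP_3dfad8_al.F5.Grp

namespace Pool.Agent.Results.MP_3dfad8_al.PrimeFive

/-- The Mann-Praeger question for `p = 5`. -/
theorem result :
    ∀ (n : ℕ) (G : Subgroup (Equiv.Perm (Fin n))),
      MulAction.IsPretransitive G (Fin n) →
      IsPGroup 5 G →
      (∀ g : G, (∀ x : Fin n, g • x ≠ x) → orderOf g = 5) →
      ∀ g : G, g ^ 5 = 1 := by
  intro n G htr hG hd g
  rcases isEmpty_or_nonempty (Fin n) with _ | ⟨⟨x₀⟩⟩
  · exact Subtype.ext (Equiv.ext fun x => isEmptyElim x)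
  have : Fact (Nat.Prime 5) := ⟨by norm_num⟩
  have : Group.IsNilpotent G := hG.isNilpotent
  rcases eq_top_or_exists_le_coatom (MulAction.stabilizer G x₀) with h | ⟨M, hM, hle⟩
  · refine Subtype.ext (Equiv.ext fun x => ?_)
    obtain ⟨k, rfl⟩ := htr.exists_smul_eq x₀ x
    have h1 : ∀ a : G, a • x₀ = x₀ := fun a =>
      MulAction.mem_stabilizer_iff.1 (h ▸ Subgroup.mem_top a)
    change (g ^ 5) • k • x₀ = k • x₀
    rw [h1, h1]
  have : M.Normal := Subgroup.NormalizerCondition.normal_of_coatom M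
    Group.normalizerCondition_of_isNilpotent hM
  have hfree : ∀ a : G, a ^ 5 ≠ 1 → ∃ x : Fin n, a • x = x := fun a ha => by
    by_contra h
    push Not at h
    exact ha (by rw [← hd a h, pow_orderOf_eq_one])
  refine Pool.Agent.P.MP_3dfad8_al.F5.exp_five M hM.1 (fun a ha => ?_) (fun a ha => ?_) g
  · by_contra h
    obtain ⟨x, hx⟩ := hfree a h
    obtain ⟨k, rfl⟩ := htr.exists_smul_eq x₀ x
    have h1 : k⁻¹ * a * k ∈ M := hle (by
      rw [MulAction.mem_stabilizer_iff, mul_smul, mul_smul, hx, inv_smul_smul])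
    have h2 := Subgroup.Normal.conj_mem inferInstance _ h1 k
    exact ha (by simpa [mul_assoc] using h2)
  · by_contra h
    obtain ⟨x, hx⟩ := hfree a h
    refine h (Subtype.ext (Equiv.ext fun z => ?_))
    obtain ⟨k, rfl⟩ := htr.exists_smul_eq x z
    change (a ^ 5) • k • x = k • x
    rw [← mul_smul, (ha k).eq, mul_smul, MulAction.mem_stabilizer_iff.1
      ((MulAction.stabilizer G x).pow_mem (MulAction.mem_stabilizer_iff.2 hx) 5)]

end Pool.Agent.Results.MP_3dfad8_al.PrimeFive
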