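import Pool.Agent.P.MP_3dfad8_al.H3.Cls

namespace Pool.Agent.Results.MP_3dfad8_al.SecondDerived

/-- The Mann-Praeger question when every two-generator subgroup `K` has `[[γ₃, γ₂], γ₃] = 1`,
where `γ₂ = K.lowerCentralSeries 1` and `γ₃ = K.lowerCentralSeries 2`. -/
theorem result :
    ∀ (p : ℕ), p.Prime → ∀ (n : ℕ) (G : Subgroup (Equiv.Perm (Fin n))),
      MulAction.IsPretransitive G (Fin n) →
      IsPGroup p G →
      (∀ g : G, (∀ x : Fin n, g • x ≠ x) → orderOf g = p) →
      (∀ a b : G, ⁅⁅(Subgroup.closure {a, b}).lowerCentralSeries 2,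
        (Subgroup.closure {a, b}).lowerCentralSeries 1⁆,
        (Subgroup.closure {a, b}).lowerCentralSeries 2⁆ = ⊥) →
      ∀ g : G, g ^ p = 1 := by
  intro p hp n G htr hG hd hH g
  rcases isEmpty_or_nonempty (Fin n) with _ | ⟨⟨x₀⟩⟩
  · exact Subtype.ext (Equiv.ext fun x => isEmptyElim x)
  have : Fact p.Prime := ⟨hp⟩
  have : Group.IsNilpotent G := hG.isNilpotent
  rcases eq_top_or_exists_le_coatom (MulAction.stabilizer G x₀) with h | ⟨M, hM, hle⟩
  · refine Subtype.ext (Equiv.ext fun x => ?_)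
    obtain ⟨k, rfl⟩ := htr.exists_smul_eq x₀ x
    have h1 : ∀ a : G, a • x₀ = x₀ := fun a =>
      MulAction.mem_stabilizer_iff.1 (h ▸ Subgroup.mem_top a)
    change (g ^ p) • k • x₀ = k • x₀
    rw [h1, h1]
  have : M.Normal := Subgroup.NormalizerCondition.normal_of_coatom M
    Group.normalizerCondition_of_isNilpotent hM
  have hfree : ∀ a : G, a ^ p ≠ 1 → ∃ x : Fin n, a • x = x := fun a ha => by
    by_contra h
    push Not at h
    exact ha (by rw [← hd a h, pow_orderOf_eq_one])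
  refine Pool.Agent.P.MP_3dfad8_al.H3.exp_all M hM.1 (fun a ha => ?_) hH (fun a ha => ?_) g
  · by_contra h
    obtain ⟨x, hx⟩ := hfree a h
    obtain ⟨k, rfl⟩ := htr.exists_smul_eq x₀ x
    have h1 : k⁻¹ * a * k ∈ M := hle (by
      rw [MulAction.mem_stabilizer_iff, mul_smul, mul_smul, hx, inv_smul_smul])
    have h2 := Subgroup.Normal.conj_mem inferInstance _ h1 k
    exact ha (by simpa [mul_assoc] using h2)
  · by_contra h
    obtain ⟨x, hx⟩ := hfree a h
    refine h (Subtype.ext (Equiv.ext fun z => ?_))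
    obtain ⟨k, rfl⟩ := htr.exists_smul_eq x z
    change (a ^ p) • k • x = k • x
    rw [← mul_smul, (ha k).eq, mul_smul, MulAction.mem_stabilizer_iff.1
      ((MulAction.stabilizer G x).pow_mem (MulAction.mem_stabilizer_iff.2 hx) p)]

end Pool.Agent.Results.MP_3dfad8_al.SecondDerived
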